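import Pool.Agent.Q116.FF.O5

/-!
# Orientable five cycle double covers of dense graphs

The oriented cycle double cover conjecture, with five classes of directed cycles, for all finite
simple graphs without cut edges whose independence number is at most six, or which have `n ≥ 648`
vertices and minimum degree larger than `n/18 - 1`, or eight vertices meeting all edges, or at most
sixteen vertices of odd degree.

Proof.  An orientable cycle double cover with five classes is a flow whose values are differences of
two of five unit vectors.  Let `G` be such a graph.  Circuits of length at most four are contracted
as long as there are any; nowhere-zero 4-flows lift from the quotient to `G`, and in each of the four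
cases the quotient has at most sixteen vertices of odd degree.  By the theorem of the starting files
on such graphs (`TH362.TF.main16`) `G` has a nowhere-zero 4-flow or a Petersen quotient.  In the
first case three 2-flows, two of which are nonzero at each edge, give a flow with values in the
differences of two of four unit vectors.  In the second case the graph which arises from one of the
ten classes by contracting its complement has a flow of the required kind by induction (the class of
graphs is closed under quotients), the group generated by the permutations of the coordinates and
`-1` is transitive on the ordered triples of values with sum zero, so the ten flows and a flow of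
the Petersen graph fit together.
-/

set_option autoImplicit false

namespace Pool.Agent.Results.MP_781dd6_co.DenseGraphs

open scoped Classical in
/-- Let `G` be a finite simple graph without cut edges. Assume that (a) any seven vertices contain
two adjacent ones, or (b) `G` has `n ≥ 648` vertices and `n < 18 (d + 1)` for the degree `d` of
each vertex, or (c) there are eight vertices which meet all edges, or (d) at most sixteen vertices
have odd degree. Then there are five families of directed cycles such that no family traverses an
edge more than once in total and every edge is traversed exactly once in each direction. -/
theorem result :
    ∀ (V : Type) [Fintype V] (G : SimpleGraph V),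
      (∀ u v : V, G.Adj u v → (G.deleteEdges {s(u, v)}).Reachable u v) →
      ((∀ I : Finset V, 7 ≤ I.card → ∃ u ∈ I, ∃ v ∈ I, G.Adj u v) ∨
        (648 ≤ Fintype.card V ∧ ∀ v, Fintype.card V < 18 * (G.degree v + 1)) ∨
        (∃ C : Finset V, C.card ≤ 8 ∧ ∀ u v, G.Adj u v → u ∈ C ∨ v ∈ C) ∨
        (Finset.univ.filter (fun v => Odd (G.degree v))).card ≤ 16) →
      ∃ C : Fin 5 → List (Σ v : V, G.Walk v v), (∀ i, ∀ c ∈ C i, c.2.IsCycle) ∧
        (∀ i u v, ((C i).map (fun c =>
            (c.2.darts.filter (fun d => decide (d.toProd = (u, v)))).length)).sum +
          ((C i).map (fun c =>
            (c.2.darts.filter (fun d => decide (d.toProd = (v, u)))).length)).sum ≤ 1) ∧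
        ∀ u v, G.Adj u v → ∑ i, ((C i).map (fun c =>
          (c.2.darts.filter (fun d => decide (d.toProd = (u, v)))).length)).sum = 1 := by
  intro V _ G h hG
  exact Q116.FF.main5 G h hG

end Pool.Agent.Results.MP_781dd6_co.DenseGraphs
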