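import Pool.Agent.Q116.FF.O5
import Pool.Agent.Q116.FF.V5
import Pool.Agent.Q116.FF.Cnv
import Pool.Agent.Q114.TC.Dd

/-!
# Orientable five cycle double covers of graphs most of whose edges lie in short cycles

The oriented cycle double cover conjecture, with five classes of directed cycles, for all finite
simple graphs without cut edges in which at most 26 edges lie in no triangle and no 4-cycle, or in
which the edges in triangles and 4-cycles form a spanning subgraph with at most 17 components, or
which have `n ≥ 24` vertices and at least `C(n-17, 2) + 37` edges.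

Proof.  In a quotient without circuits of length two, three and four the edges of triangles and
4-cycles are loops.  So the quotient has at most 26 edges that are not loops and therefore at most
16 vertices of odd degree, or at most 17 vertices; if the quotient has `k ≥ 18` vertices, then it
has at most `k √(k-1) / 2` edges other than loops, and at most 36 if `k = 18` and all degrees are
odd, and the remaining edges lie inside the classes.  The theorem of the starting files on graphs
with at most sixteen vertices of odd degree (`TH362.TF.main16`) and the induction over nested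
Petersen quotients (`Q116/FF/Wf`, `V5`) apply.
-/

set_option autoImplicit false

open Finset Pool.Agent.TH362.TF Pool.Agent.TH362.TF.Four Q116.FF

namespace Pool.Agent.Results.MP_781dd6_co.EdgesInShortCycles

/-- `ab` is an edge of `G` that lies in a triangle or in a cycle of length four. -/
def InShort {V : Type} (G : SimpleGraph V) (a b : V) : Prop :=
  G.Adj a b ∧ ((∃ c, G.Adj b c ∧ G.Adj c a) ∨
    ∃ c d, a ≠ c ∧ b ≠ d ∧ G.Adj b c ∧ G.Adj c d ∧ G.Adj d a)

section
set_option linter.unusedSectionVars false
variable {V : Type} [Fintype V] [DecidableEq V] (G : SimpleGraph V) [Fintype G.edgeSet]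
  [DecidableEq G.edgeSet]

theorem ends_of (f : V → V) {a b : V} (h : G.Adj a b) :
    Ends (fun e => f (sE G e)) (fun e => f (tE G e)) (f a) (f b) ⟨s(a, b), h⟩ := by
  rcases (st_eq G h ⟨s(a, b), h⟩).1 rfl with ⟨h1, h2⟩ | ⟨h1, h2⟩
  · exact Or.inl ⟨congrArg f h1, congrArg f h2⟩
  · exact Or.inr ⟨congrArg f h2, congrArg f h1⟩

theorem short_eq (f : V → V)
    (hs : Sm (fun e => f (sE G e)) (fun e => f (tE G e)) (univ : Finset G.edgeSet)) {a b : V}
    (h : InShort G a b) : f a = f b := by
  obtain ⟨hab, ⟨c, hbc, hca⟩ | ⟨c, d, hac, hbd, hbc, hcd, hda⟩⟩ := h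
  · refine Q114.TC.three_eq hs (mem_univ _) (mem_univ _) (mem_univ _) ?_ ?_ (ends_of G f hab)
      (ends_of G f hbc) (ends_of G f hca)
    · intro hc
      rw [Subtype.mk.injEq, Sym2.eq_iff] at hc
      rcases hc with ⟨h1, _⟩ | ⟨h1, _⟩
      · exact hab.ne h1
      · exact hca.ne h1.symm
    · intro hc
      rw [Subtype.mk.injEq, Sym2.eq_iff] at hc
      rcases hc with ⟨h1, _⟩ | ⟨_, h1⟩
      · exact hca.ne h1.symm
      · exact hbc.ne h1
  · refine Q114.TC.four_eq hs (mem_univ _) (mem_univ _) (mem_univ _) (mem_univ _) ?_ ?_ ?_
      (ends_of G f hab) (ends_of G f hbc) (ends_of G f hcd) (ends_of G f hda)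
    · intro hc
      rw [Subtype.mk.injEq, Sym2.eq_iff] at hc
      rcases hc with ⟨h1, _⟩ | ⟨h1, _⟩
      · exact hab.ne h1
      · exact hac h1
    · intro hc
      rw [Subtype.mk.injEq, Sym2.eq_iff] at hc
      rcases hc with ⟨h1, _⟩ | ⟨h1, _⟩
      · exact hac h1
      · exact hda.ne h1.symm
    · intro hc
      rw [Subtype.mk.injEq, Sym2.eq_iff] at hc
      rcases hc with ⟨h1, _⟩ | ⟨_, h1⟩
      · exact hda.ne h1.symm
      · exact hbd h1

end

open scoped Classical in
/-- Let `G` be a finite simple graph without cut edges such that (a) at most 26 edges lie in no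
triangle and no cycle of length four, or (b) there are at most 17 vertices such that each vertex is
joined to one of them by a path all of whose edges lie in triangles or cycles of length four, or (c)
`G` has `n ≥ 24` vertices and at least `C(n-17, 2) + 37` edges. Then there are five families of
directed cycles such that no family traverses an edge more than once in total and every edge is
traversed exactly once in each direction. -/
theorem result :
    ∀ (V : Type) [Fintype V] (G : SimpleGraph V),
      (∀ u v : V, G.Adj u v → (G.deleteEdges {s(u, v)}).Reachable u v) →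
      ({e : Sym2 V | ∃ a b, e = s(a, b) ∧ G.Adj a b ∧ ¬ InShort G a b}.ncard ≤ 26 ∨
        (∃ R : Finset V, R.card ≤ 17 ∧ ∀ v, ∃ r ∈ R, Relation.ReflTransGen (InShort G) r v) ∨
        (24 ≤ Fintype.card V ∧ (Fintype.card V - 17).choose 2 + 37 ≤ G.edgeSet.ncard)) →
      ∃ C : Fin 5 → List (Σ v : V, G.Walk v v), (∀ i, ∀ c ∈ C i, c.2.IsCycle) ∧
        (∀ i u v, ((C i).map (fun c =>
            (c.2.darts.filter (fun d => decide (d.toProd = (u, v)))).length)).sum +
          ((C i).map (fun c =>
            (c.2.darts.filter (fun d => decide (d.toProd = (v, u)))).length)).sum ≤ 1) ∧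
        ∀ u v, G.Adj u v → ∑ i, ((C i).map (fun c =>
          (c.2.darts.filter (fun d => decide (d.toProd = (u, v)))).length)).sum = 1 := by
  intro V _ G hb h
  have hn1 := Q116.FF.n1_conv (Q116.FF.bridge_conv G hb)
  refine Q116.FF.five G (Q116.FF.wf5 ?_)
  rcases h with h | ⟨R, hR, h⟩ | ⟨hn, hE⟩
  · refine Q114.TC.dd_of_pred hn1 (fun e => InShort G (sE G e) (tE G e))
      (fun f hs e he => short_eq G f hs he)
      (univ.filter (fun e : G.edgeSet => ¬ InShort G (sE G e) (tE G e))) ?_ (fun e he => ?_)
    · refine le_trans ?_ h
      rw [← Set.ncard_coe_finset]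
      refine Set.ncard_le_ncard_of_injOn (fun e : G.edgeSet => (e : Sym2 V)) ?_
        (fun e _ e' _ hee => Subtype.ext hee) (Set.toFinite _)
      intro e he
      rw [mem_coe, mem_filter] at he
      exact ⟨sE G e, tE G e, (st_mk G e).symm, st_adj G e, he.2⟩
    · by_contra hc
      exact he (mem_filter.2 ⟨mem_univ _, hc⟩)
  · exact Q114.TC.dd_of_rel hn1 (InShort G) (fun f hs u v huv => short_eq G f hs huv) R hR h
  · refine Q114.TC.dd_of_size hn1 (fun e => (st_adj G e).ne) (fun e e' hee => ?_) hn ?_
    · apply Subtype.ext
      rw [← st_mk G e, ← st_mk G e', Sym2.eq_iff]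
      exact hee
    · have h1 : Fintype.card G.edgeSet = G.edgeSet.ncard := by
        rw [← Nat.card_coe_set_eq, Nat.card_eq_fintype_card]
      rw [card_univ, h1]
      exact hE

end Pool.Agent.Results.MP_781dd6_co.EdgesInShortCycles
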