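import Pool.Agent.Q116.FF.O5
import Pool.Agent.Q116.MM.Mat

/-!
# Orientable five cycle double covers of graphs without nine independent edges

The oriented cycle double cover conjecture, with five classes of directed cycles, for all finite
simple graphs without cut edges whose matching number is at most eight. The number of vertices, the
degrees and the width are not bounded.

Proof.  Circuits of length at most four are contracted as long as there are any; nowhere-zero
4-flows lift from the quotient `H`.  The matching number of `H` is at most eight, `H` has no bridges
and no circuits of length at most four.  By the theorem of Tutte and Berge there are a set `A` of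
`a ≤ 8` vertices and many odd sets of vertices which are joined only to `A`; if `H` has more than
sixteen vertices of odd degree, then at least `a + 2` of these sets consist of vertices of odd
degree, and a count gives a contradiction for each `a` (file `Q116/MM/Cnt`).  So `H` has at most
sixteen vertices of odd degree, and the theorem of the starting files on such graphs
(`TH362.TF.main16`) and the induction over nested Petersen quotients (`Q116/FF/Wf`, `V5`) apply.
-/

set_option autoImplicit false

namespace Pool.Agent.Results.MP_781dd6_co.MatchingNumberEight

open scoped Classical in
/-- Let `G` be a finite simple graph without cut edges such that among any nine edges there are two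
with a common vertex. Then there are five families of directed cycles such that no family traverses
an edge more than once in total and every edge is traversed exactly once in each direction. -/
theorem result :
    ∀ (V : Type) [Fintype V] (G : SimpleGraph V),
      (∀ u v : V, G.Adj u v → (G.deleteEdges {s(u, v)}).Reachable u v) →
      (∀ a b : Fin 9 → V, (∀ i, G.Adj (a i) (b i)) →
        ∃ i j, i ≠ j ∧ (a i = a j ∨ a i = b j ∨ b i = b j)) →
      ∃ C : Fin 5 → List (Σ v : V, G.Walk v v), (∀ i, ∀ c ∈ C i, c.2.IsCycle) ∧
        (∀ i u v, ((C i).map (fun c =>
            (c.2.darts.filter (fun d => decide (d.toProd = (u, v)))).length)).sum +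
          ((C i).map (fun c =>
            (c.2.darts.filter (fun d => decide (d.toProd = (v, u)))).length)).sum ≤ 1) ∧
        ∀ u v, G.Adj u v → ∑ i, ((C i).map (fun c =>
          (c.2.darts.filter (fun d => decide (d.toProd = (u, v)))).length)).sum = 1 := by
  intro V _ G h hG
  refine Q116.FF.five G (Q116.FF.wf5 (Q116.MM.dd_of_matching (Q116.FF.n1_conv
    (Q116.FF.bridge_conv G h)) fun M _ hM => Q116.MM.small_of (fun e _ => ?_) M hM))
  exact hG (fun i => Q116.FF.sE G (e i)) (fun i => Q116.FF.tE G (e i))
    (fun i => Q116.FF.st_adj G (e i))

end Pool.Agent.Results.MP_781dd6_co.MatchingNumberEight
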