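import Pool.Agent.Q116.CayS

/-!
Oriented cycle double covers of Cayley graphs, of graphs with a group of automorphisms acting
freely on the arcs, and of all finite covers of such graphs.

Proof. It is enough to divide the arcs into classes such that every class is balanced at every
vertex and contains no two opposite arcs.

*Covers.* The classes of a decomposition of the arcs of `B` into directed cycles are pulled back.

*A group acting freely on the arcs such that every vertex is fixed by an element of order `p`.*
Every orbit of edges is treated separately. Let `(v, w)` be an arc, `x`, `y` elements of order `p`
which fix `v` and `w`. If some `r` exchanges `v` and `w`, the class of the arc `(g v, g w)` is the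
coset of `g` modulo the cyclic group generated by `r x`; otherwise the classes of `(g v, g w)` and
`(g w, g v)` are the cosets of `g` and of `g y⁻¹` modulo the group generated by `y x`. Opposite
arcs get different classes, because `r` and `x` do not commute, and because a cyclic group has only
one subgroup of order `p`.

*Cayley graphs.* If the number of generators is even, an Eulerian orientation and the opposite one
are two classes. If it is odd, there is an involution `a` among the generators. If there is a
generator `s` of order at least three, the generators different from `a, s, s⁻¹` are even in
number, and for `a, s, s⁻¹` one takes the cosets modulo `a s` as long as `a` is not a power of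
`a s`; otherwise everything is abelian: if `a` is not a power of `s` one takes the faces of the
prisms, and if it is, the edges are coloured with three colours. If all the generators are
involutions, three of them colour the edges of a cubic graph. (For edges coloured with three
colours the cover is known, from nowhere-zero 4-flows.)
-/

set_option autoImplicit false

namespace Pool.Agent.Results.MP_781dd6_co.SymmetricGraphsAndCovers

open scoped Classical in
/-- The associated digraph of `G` is decomposed into directed cycles of length at least three. -/
def OrientedCDC {V : Type} (G : SimpleGraph V) : Prop :=
  ∃ C : List (Σ v : V, G.Walk v v), (∀ c ∈ C, c.2.IsCycle) ∧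
    ∀ u v : V, G.Adj u v →
      (C.map (fun c => (c.2.darts.filter (fun d => decide (d.toProd = (u, v)))).length)).sum = 1

/-- There is a map of the vertices of `G` to those of `B` which maps edges to edges and is a
bijection from the neighbours of each vertex `u` to the neighbours of its image. -/
def IsCoverOf {V W : Type} (G : SimpleGraph V) (B : SimpleGraph W) : Prop :=
  ∃ f : V → W, (∀ u v, G.Adj u v → B.Adj (f u) (f v)) ∧
    ∀ u x, B.Adj (f u) x → ∃! v, G.Adj u v ∧ f v = x

/-- Let the finite graph `G` be a cover of the finite graph `B` (for example `G = B`). Assume that
`B` has an oriented cycle double cover, or that a group `Γ` acts on `B` by automorphisms such that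
no element except the identity fixes two adjacent vertices and

* for some prime `p` every vertex of `B` is fixed by an element of `Γ` of order `p`, or
* `Γ` is transitive on the vertices of `B`, and the vertices of `B` do not have degree one.

Then `G` has an oriented cycle double cover. In particular this holds for all Cayley graphs of
finite groups of degree different from one, and for all their finite covers. -/
theorem result :
    ∀ (V W : Type) [Fintype V] [Fintype W] (G : SimpleGraph V) (B : SimpleGraph W),
      IsCoverOf G B →
      (OrientedCDC B ∨ ∃ (Γ : Type) (_ : Group Γ) (_ : MulAction Γ W),
        (∀ (g : Γ) (u v : W), B.Adj u v → B.Adj (g • u) (g • v)) ∧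
        (∀ (g : Γ) (u v : W), B.Adj u v → g • u = u → g • v = v → g = 1) ∧
        ((∃ p : ℕ, p.Prime ∧ ∀ v : W, ∃ x : Γ, orderOf x = p ∧ x • v = v) ∨
          ((∀ u v : W, ∃ g : Γ, g • u = v) ∧ ∀ v : W, (B.neighborSet v).ncard ≠ 1))) →
      OrientedCDC G := by
  rintro V W _ _ G B ⟨f, h1, h2⟩ h
  have hB : Q116.CayO.HasOC B := by
    rcases h with h | ⟨Γ, iG, iA, ha, hf, ⟨p, hp, hfix⟩ | ⟨ht, hd⟩⟩
    · exact h
    · exact Q116.CayO.has_of_fixed B Γ hp ha hf hfix
    · exact Q116.CayO.has_of_transitive B Γ ha hf ht hd
  exact Q116.CayO.HasOC.cover f h1 h2 hB

end Pool.Agent.Results.MP_781dd6_co.SymmetricGraphsAndCovers
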